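import Pool.Agent.helper16.GK.Spec

/-!
# Project GK (MP_2e0e07_nt), row UNR: almost all primes are unramified
-/

set_option autoImplicit false

namespace Pool.Agent.GK

open NumberField IsDedekindDomain

/-- a prime which does not divide the discriminant generates a squarefree ideal -/
theorem UNR_sq (E : Type) [Field E] [NumberField E] (q : ℕ) (hq : q.Prime) (hd : ¬ q ∣ (discr E).natAbs) :
    Squarefree (Ideal.span {((q : ℕ) : 𝓞 E)}) := by
  have hq0 : ((q : ℕ) : 𝓞 E) ≠ 0 := by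
    exact_mod_cast hq.ne_zero
  rw [squarefree_iff_no_irreducibles (by rwa [Ne, Ideal.zero_eq_bot, Ideal.span_singleton_eq_bot])]
  intro P hP hdvd
  have hPp : Prime P := hP.prime
  have hPI : P.IsPrime := Ideal.isPrime_of_prime hPp
  have hmap : (Ideal.span {((q : ℕ) : ℤ)}).map (algebraMap ℤ (𝓞 E)) = Ideal.span {((q : ℕ) : 𝓞 E)} := by
    rw [Ideal.map_span, Set.image_singleton]
    simp
  have hmax : (Ideal.span {((q : ℕ) : ℤ)}).IsMaximal :=
    PrincipalIdealRing.isMaximal_of_irreducible (Nat.prime_iff_prime_int.1 hq).irreducible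
  have hne : Ideal.span {((q : ℕ) : ℤ)} ≠ ⊥ := by
    rw [Ne, Ideal.span_singleton_eq_bot]
    exact_mod_cast hq.ne_zero
  have h1 : P ^ (2 - 1) ∣ differentIdeal ℤ (𝓞 E) := by
    apply pow_sub_one_dvd_differentIdeal ℤ P 2 hne
    rw [hmap, pow_two]
    exact hdvd
  rw [show 2 - 1 = 1 from rfl, pow_one] at h1
  have h2 : Ideal.absNorm P ∣ (discr E).natAbs := by
    rw [← NumberField.absNorm_differentIdeal E (𝓞 E)]
    exact Ideal.absNorm_dvd_absNorm_of_le (Ideal.dvd_iff_le.1 h1)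
  have h3 : ¬ q ∣ Ideal.absNorm P := fun h => hd (h.trans h2)
  have h4 : Nat.Coprime q (Ideal.absNorm P) := (Nat.Prime.coprime_iff_not_dvd hq).2 h3
  have h5 : ((q : ℕ) : 𝓞 E) ∈ P := by
    have : Ideal.span {((q : ℕ) : 𝓞 E)} ≤ P := Ideal.dvd_iff_le.1 ((dvd_mul_right P P).trans hdvd)
    exact this (Ideal.mem_span_singleton_self _)
  have h6 : ((Ideal.absNorm P : ℕ) : 𝓞 E) ∈ P := Ideal.absNorm_mem P
  have h7 : (1 : 𝓞 E) ∈ P := by
    have hc := Nat.isCoprime_iff_coprime.2 h4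
    obtain ⟨a, b, hab⟩ := hc
    have h8 : (1 : 𝓞 E) = (a : 𝓞 E) * ((q : ℕ) : 𝓞 E) + (b : 𝓞 E) * ((Ideal.absNorm P : ℕ) : 𝓞 E) := by
      exact_mod_cast (congrArg (fun n : ℤ => (n : 𝓞 E)) hab).symm
    rw [h8]
    exact P.add_mem (P.mul_mem_left _ h5) (P.mul_mem_left _ h6)
  exact hPI.ne_top ((Ideal.eq_top_iff_one P).2 h7)

theorem UNR_unr (E : Type) [Field E] [NumberField E] (q : ℕ) (hq : q.Prime) (h5 : 5 ≤ q) (hd : ¬ q ∣ (discr E).natAbs) :
    Pool.Agent.RG.IsUnr E q := by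
  refine ⟨h5, ?_⟩
  intro x hx hx2
  have hqE : ((q : ℕ) : E) ≠ 0 := by
    exact_mod_cast hq.ne_zero
  let y : 𝓞 E := ⟨x, hx⟩
  let z : 𝓞 E := ⟨x ^ 2 / (q : E), hx2⟩
  have hyz : y ^ 2 = ((q : ℕ) : 𝓞 E) * z := by
    apply RingOfIntegers.ext
    show ((y ^ 2 : 𝓞 E) : E) = ((((q : ℕ) : 𝓞 E) * z : 𝓞 E) : E)
    push_cast
    show x ^ 2 = (q : E) * (x ^ 2 / (q : E))
    field_simp
  have h1 : Ideal.span {((q : ℕ) : 𝓞 E)} ∣ Ideal.span {y} ^ 2 := by
    rw [Ideal.span_singleton_pow, hyz, ← Ideal.span_singleton_mul_span_singleton]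
    exact dvd_mul_right _ _
  have h2 : Ideal.span {((q : ℕ) : 𝓞 E)} ∣ Ideal.span {y} := (UNR_sq E q hq hd).isRadical 2 _ h1
  rw [Ideal.dvd_iff_le, Ideal.span_singleton_le_span_singleton] at h2
  obtain ⟨w, hw⟩ := h2
  have h3 : x / (q : E) = (w : E) := by
    have h4 : x = (q : E) * (w : E) := by
      have := congrArg (fun t : 𝓞 E => (t : E)) hw
      push_cast at this
      exact this
    rw [h4]
    field_simp
  rw [h3]
  exact w.2

theorem UNR : UNR_stmt := by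
  intro E _ _
  refine (Set.finite_Iic (5 + (discr E).natAbs)).subset ?_
  rintro q ⟨hq, hn⟩
  by_contra hc
  rw [Set.mem_Iic, not_le] at hc
  apply hn
  refine UNR_unr E q hq (by omega) (fun hd => ?_)
  have h0 : 0 < (discr E).natAbs := Int.natAbs_pos.2 (discr_ne_zero E)
  have := Nat.le_of_dvd h0 hd
  omega

end Pool.Agent.GK
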